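import Mathlib

set_option autoImplicit false

open Set Topology Filter

namespace Pool.Agent.Results.MP_a8a70f_gt.K2Hausdorff

/-- The equivalence relation collapsing `A` to a point. -/
def collapse {Y : Type} (A : Set Y) : Setoid Y where
  r x y := x = y ∨ (x ∈ A ∧ y ∈ A)
  iseqv := ⟨fun _ => Or.inl rfl, fun h => h.elim (fun h => Or.inl h.symm) (fun h => Or.inr h.symm),
    fun h h' => by
      rcases h with rfl | h
      · exact h'
      · rcases h' with rfl | h'
        · exact Or.inr h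
        · exact Or.inr ⟨h.1, h'.2⟩⟩

/-- The set `Y / A`. -/
def FMQ (Y : Type) (A : Set Y) : Type := Quotient (collapse A)

/-- The collapsing map `q : Y → Y / A`. -/
def q {Y : Type} (A : Set Y) (y : Y) : FMQ Y A := Quotient.mk (collapse A) y

/-- `U` is open iff `q ⁻¹ U` is open and, when `U` contains the point `q(A)`, dense. -/
instance (Y : Type) [TopologicalSpace Y] (A : Set Y) : TopologicalSpace (FMQ Y A) where
  IsOpen U := IsOpen (q A ⁻¹' U) ∧ ((∃ a ∈ A, q A a ∈ U) → Dense (q A ⁻¹' U))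
  isOpen_univ := ⟨isOpen_univ, fun _ => dense_univ⟩
  isOpen_inter := by
    rintro U V hU hV
    refine ⟨hU.1.inter hV.1, ?_⟩
    rintro ⟨a, ha, h1, h2⟩
    exact (hU.2 ⟨a, ha, h1⟩).inter_of_isOpen_left (hV.2 ⟨a, ha, h2⟩) hU.1
  isOpen_sUnion := by
    intro S hS
    constructor
    · rw [preimage_sUnion]
      exact isOpen_biUnion fun U hU => (hS U hU).1
    · rintro ⟨a, ha, U, hU, h⟩
      exact ((hS U hU).2 ⟨a, ha, h⟩).mono (preimage_mono (subset_sUnion_of_mem hU))

/-- The Cech-Stone remainder of `ℕ`: free ultrafilters, as a subspace of `βℕ`. -/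
abbrev NStar : Type := {p : Ultrafilter ℕ // ∀ n : ℕ, p ≠ pure n}

section general

variable {Y : Type} [TopologicalSpace Y] {A : Set Y}

lemma pre_im {V : Set Y} (hV : Disjoint V A) : q A ⁻¹' (q A '' V) = V := by
  ext y
  constructor
  · rintro ⟨v, hv, h⟩
    rcases Quotient.exact h with h | h
    · exact h ▸ hv
    · exact absurd h.1 (Set.disjoint_left.1 hV hv)
  · exact fun h => ⟨y, h, rfl⟩

lemma isOpen_im {V : Set Y} (hV : Disjoint V A) (ho : IsOpen V) : IsOpen (q A '' V) := by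
  refine ⟨by rwa [pre_im hV], ?_⟩
  rintro ⟨a, ha, h⟩
  have : a ∈ q A ⁻¹' (q A '' V) := h
  rw [pre_im hV] at this
  exact absurd ha (Set.disjoint_left.1 hV this)

lemma isClosed_im {N : Set Y} (hN : Disjoint N A) (hc : IsClosed N) (hi : interior N = ∅) :
    IsClosed (q A '' N) := by
  refine ⟨⟨?_, fun _ => ?_⟩⟩
  · rw [preimage_compl, pre_im hN]; exact hc.isOpen_compl
  · rw [preimage_compl, pre_im hN]; exact interior_eq_empty_iff_dense_compl.1 hi

lemma sep [T3Space Y] (hA : IsClosed A)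
    (hY : ∀ u : ℕ → Y, interior (closure (range u)) = ∅)
    {K : Type} [TopologicalSpace K] [CompactSpace K] [T2Space K] {f : K → FMQ Y A}
    (hf : Continuous f) {a b : K} {a0 y : Y} (ha0 : a0 ∈ A) (hy : y ∉ A) (ha : f a = q A a0)
    (hb : f b = q A y) :
    ∃ U V : Set K, IsOpen U ∧ IsOpen V ∧ a ∈ U ∧ b ∈ V ∧ ∀ s ∈ U, ∀ t ∈ V, f s ≠ f t := by
  obtain ⟨V, hVn, hVc, hVA⟩ := exists_mem_nhds_isClosed_subset (hA.isOpen_compl.mem_nhds hy)
  have hVA' : Disjoint V A := Set.disjoint_left.2 hVA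
  obtain ⟨S, hS⟩ := zorn_subset {S : Set (Set Y) | (∀ W ∈ S, IsOpen W ∧ W ⊆ V ∧ y ∉ closure W) ∧
      S.PairwiseDisjoint id} (fun c hc hch => ⟨⋃₀ c, ⟨fun W ⟨S, hS, hW⟩ => (hc hS).1 W hW,
        pairwiseDisjoint_sUnion hch.directedOn |>.2 fun S hS => (hc hS).2⟩,
        fun _ h => subset_sUnion_of_mem h⟩)
  obtain ⟨hS1, hS2⟩ := hS.prop
  have hUo : IsOpen (⋃₀ S) := isOpen_sUnion fun W hW => (hS1 W hW).1
  have hNc : IsClosed (V \ ⋃₀ S) := hVc.sdiff hUo
  have hNi : interior (V \ ⋃₀ S) = ∅ := by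
    by_contra hne
    obtain ⟨z, hz, hzy⟩ : ∃ z ∈ interior (V \ ⋃₀ S), z ≠ y := by
      by_contra hc
      push Not at hc
      have h1 := hY fun _ => y
      obtain ⟨z, hz⟩ := nonempty_iff_ne_empty.2 hne
      have h2 : interior (V \ ⋃₀ S) ⊆ interior (closure (range fun _ : ℕ => y)) :=
        interior_maximal (fun w hw => subset_closure ⟨0, (hc w hw).symm⟩) isOpen_interior
      rw [h1] at h2
      exact h2 hz
    obtain ⟨C, hCn, hCc, hC⟩ := exists_mem_nhds_isClosed_subset
      (inter_mem (isOpen_interior.mem_nhds hz) (isOpen_compl_singleton.mem_nhds hzy))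
    have hW : insert (interior C) S ⊆ S := by
      refine hS.le_of_ge ⟨?_, ?_⟩ (subset_insert _ _)
      · rintro W (rfl | hW)
        · refine ⟨isOpen_interior, fun w hw => (interior_subset (hC (interior_subset hw)).1).1,
            fun h => ?_⟩
          exact (hC (closure_minimal interior_subset hCc h)).2 rfl
        · exact hS1 W hW
      · refine hS2.insert fun W hW _ => Set.disjoint_left.2 fun w hw hw' => ?_
        exact (interior_subset (hC (interior_subset hw)).1).2 ⟨W, hW, hw'⟩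
    exact (interior_subset hz).2 ⟨_, hW (mem_insert _ _), mem_interior_iff_mem_nhds.2 hCn⟩
  have hC : IsClosed (f ⁻¹' (q A '' (V \ ⋃₀ S))) :=
    (isClosed_im (hVA'.mono_left diff_subset) hNc hNi).preimage hf
  have haC : a ∉ f ⁻¹' (q A '' (V \ ⋃₀ S)) := by
    intro h
    have : a0 ∈ q A ⁻¹' (q A '' (V \ ⋃₀ S)) := by
      rw [mem_preimage, ← ha]; exact h
    rw [pre_im (hVA'.mono_left diff_subset)] at this
    exact hVA this.1 ha0
  obtain ⟨O', hO'n, hO'c, hO'⟩ := exists_mem_nhds_isClosed_subset (hC.isOpen_compl.mem_nhds haC)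
  have hT : {W ∈ S | ∃ x ∈ O', f x ∈ q A '' W}.Finite := by
    by_contra hinf
    let g := Set.Infinite.natEmbedding _ hinf
    choose x hx y' hy' hxy using fun n => (g n).2.2
    have hN' : closure (range y') ⊆ V :=
      closure_minimal (by rintro _ ⟨n, rfl⟩; exact (hS1 _ (g n).2.1).2.1 (hy' n)) hVc
    have hcl : IsClosed (O' ∩ f ⁻¹' (q A '' closure (range y'))) :=
      hO'c.inter ((isClosed_im (hVA'.mono_left hN') isClosed_closure (hY y')).preimage hf)
    obtain ⟨z, ⟨hz1, w, hw, hwz⟩, hz⟩ := hcl.isCompact.exists_mapClusterPt (u := x) (f := atTop)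
      (by
        rw [le_principal_iff, mem_map]
        exact Eventually.of_forall fun n => ⟨hx n, y' n, subset_closure ⟨n, rfl⟩, hxy n⟩)
    obtain ⟨W, hW, hwW⟩ : w ∈ ⋃₀ S := by
      by_contra hc
      exact hO' hz1 ⟨w, ⟨hN' hw, hc⟩, hwz⟩
    have hWA : Disjoint W A := hVA'.mono_left (hS1 W hW).2.1
    have hop : IsOpen (f ⁻¹' (q A '' W)) := (isOpen_im hWA (hS1 W hW).1).preimage hf
    have hfr := hz.frequently (hop.mem_nhds ⟨w, hwW, hwz⟩)
    have key : ∀ n, x n ∈ f ⁻¹' (q A '' W) → (g n).1 = W := by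
      intro n hn
      have : y' n ∈ q A ⁻¹' (q A '' W) := by
        rw [mem_preimage, hxy n]; exact hn
      rw [pre_im hWA] at this
      by_contra hne
      exact Set.disjoint_left.1 (hS2 (g n).2.1 hW hne) (hy' n) this
    obtain ⟨n, hn⟩ := hfr.exists
    obtain ⟨m, hm, hnm⟩ := (hfr.and_eventually (eventually_gt_atTop n)).exists
    have := g.injective (Subtype.ext ((key n hn).trans (key m hm).symm))
    omega
  set V' := interior V \ ⋃ W ∈ {W ∈ S | ∃ x ∈ O', f x ∈ q A '' W}, closure W with hV'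
  have hV'o : IsOpen V' := isOpen_interior.sdiff (hT.isClosed_biUnion fun _ _ => isClosed_closure)
  have hV'A : Disjoint V' A := hVA'.mono_left (diff_subset.trans interior_subset)
  refine ⟨interior O', f ⁻¹' (q A '' V'), isOpen_interior, (isOpen_im hV'A hV'o).preimage hf,
    mem_interior_iff_mem_nhds.2 hO'n, ⟨y, ⟨mem_interior_iff_mem_nhds.2 hVn, ?_⟩, hb.symm⟩, ?_⟩
  · simp only [mem_iUnion, not_exists]
    exact fun W hW => (hS1 W hW.1).2.2
  · rintro s hs t ⟨v, hv, hvt⟩ hst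
    have hs' := interior_subset hs
    by_cases h : v ∈ ⋃₀ S
    · obtain ⟨W, hW, hvW⟩ := h
      exact hv.2 (mem_biUnion (show W ∈ {W ∈ S | ∃ x ∈ O', f x ∈ q A '' W} from
        ⟨hW, s, hs', v, hvW, hvt.trans hst.symm⟩) (subset_closure hvW))
    · exact hO' hs' ⟨v, ⟨interior_subset hv.1, h⟩, hvt.trans hst.symm⟩

lemma k2 [T3Space Y] (hA : IsClosed A)
    (hY : ∀ u : ℕ → Y, interior (closure (range u)) = ∅)
    {K : Type} [TopologicalSpace K] [CompactSpace K] [T2Space K] {f : K → FMQ Y A}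
    (hf : Continuous f) : IsClosed {p : K × K | f p.1 = f p.2} := by
  rw [← isOpen_compl_iff, isOpen_prod_iff]
  intro a b hab
  have hab' : f a ≠ f b := hab
  obtain ⟨x, hx⟩ : ∃ x, q A x = f a := Quotient.exists_rep _
  obtain ⟨y, hy⟩ : ∃ y, q A y = f b := Quotient.exists_rep _
  by_cases hxA : x ∈ A
  · have hyA : y ∉ A := fun h => hab' (by
      rw [← hx, ← hy]; exact Quotient.sound (Or.inr ⟨hxA, h⟩))
    obtain ⟨U, V, hU, hV, ha, hb, h⟩ := sep hA hY hf hxA hyA hx.symm hy.symm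
    exact ⟨U, V, hU, hV, ha, hb, fun p hp => h _ hp.1 _ hp.2⟩
  · by_cases hyA : y ∈ A
    · obtain ⟨U, V, hU, hV, ha, hb, h⟩ := sep hA hY hf hyA hxA hy.symm hx.symm
      exact ⟨V, U, hV, hU, hb, ha, fun p hp h' => h _ hp.2 _ hp.1 (Eq.symm h')⟩
    · have hxy : x ≠ y := fun h => hab' (by rw [← hx, ← hy, h])
      obtain ⟨U, V, hU, hV, hxU, hyV, hUV⟩ := t2_separation hxy
      have h1 : Disjoint (U \ A) A := disjoint_sdiff_left
      have h2 : Disjoint (V \ A) A := disjoint_sdiff_left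
      refine ⟨_, _, (isOpen_im h1 (hU.sdiff hA)).preimage hf, (isOpen_im h2 (hV.sdiff hA)).preimage hf,
        ⟨x, ⟨hxU, hxA⟩, hx⟩, ⟨y, ⟨hyV, hyA⟩, hy⟩, ?_⟩
      rintro p ⟨⟨u, hu, h3⟩, ⟨v, hv, h4⟩⟩ h'
      have h5 : v ∈ q A ⁻¹' (q A '' (U \ A)) := ⟨u, hu, h3.trans (h'.trans h4.symm)⟩
      rw [pre_im h1] at h5
      exact Set.disjoint_left.1 hUV h5.1 hv.1

end general

lemma nstar_nwd (u : ℕ → NStar) : interior (closure (range u)) = ∅ := by
  by_contra hne
  obtain ⟨p, hp⟩ := nonempty_iff_ne_empty.2 hne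
  have hcof : ∀ r : NStar, (r.1 : Filter ℕ) ≤ cofinite := fun r =>
    (r.1.le_cofinite_or_eq_pure).resolve_right (by simpa using r.2)
  obtain ⟨U, hU, hUe⟩ := isOpen_induced_iff.1 (isOpen_interior (s := closure (range u)))
  rw [← hUe] at hp
  obtain ⟨_, ⟨B, rfl⟩, hpB, hBU⟩ := ultrafilterBasis_is_basis.exists_subset_of_mem_open hp hU
  have hB : B.Infinite := fun h => by
    have h1 : Bᶜ ∈ p.1 := hcof p h.compl_mem_cofinite
    exact (Ultrafilter.compl_mem_iff_notMem.1 h1) hpB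
  have step : ∀ (C : Set ℕ) (n : ℕ), C.Infinite → ∃ C' ⊆ C, C'.Infinite ∧ C' ∉ (u n).1 := by
    intro C n hC
    obtain ⟨s, hs, h1, h2⟩ : ∃ s ⊆ C, s.Infinite ∧ (C \ s).Infinite := by
      let e := hC.natEmbedding
      have hi : Function.Injective fun k => (e k).1 := Subtype.val_injective.comp e.injective
      refine ⟨range fun k => (e (2 * k)).1, ?_, ?_, ?_⟩
      · rintro _ ⟨k, rfl⟩; exact (e _).2
      · refine infinite_range_of_injective fun a b h => ?_
        have := hi h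
        omega
      · refine infinite_of_injective_forall_mem (f := fun k => (e (2 * k + 1)).1)
          (fun a b h => ?_) fun k => ⟨(e _).2, ?_⟩
        · have := hi h
          omega
        · rintro ⟨j, hj⟩
          have := hi hj
          omega
    by_cases h : s ∈ (u n).1
    · refine ⟨C \ s, diff_subset, h2, fun h' => ?_⟩
      obtain ⟨k, hk1, hk2⟩ := Ultrafilter.nonempty_of_mem (inter_mem h h')
      exact hk2.2 hk1
    · exact ⟨s, hs, h1, h⟩
  choose! st hst1 hst2 hst3 using step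
  obtain ⟨C, hC0, hCs⟩ : ∃ C : ℕ → Set ℕ, C 0 = B ∧ ∀ n, C (n + 1) = st (C n) n :=
    ⟨fun n => Nat.rec B (fun n D => st D n) n, rfl, fun _ => rfl⟩
  have hCi : ∀ n, (C n).Infinite := by
    intro n
    induction n with
    | zero => rwa [hC0]
    | succ n ih => rw [hCs]; exact hst2 _ _ ih
  have hanti : Antitone C := antitone_nat_of_succ_le fun n => by
    rw [hCs]; exact hst1 _ _ (hCi n)
  choose g hg hg' using fun n => (hCi n).exists_gt n
  have hD : (range g).Infinite := by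
    refine infinite_of_not_bddAbove ?_
    rintro ⟨M, hM⟩
    exact absurd (hM ⟨M, rfl⟩) (not_le.2 (hg' M))
  have hDu : ∀ n, range g ∉ (u n).1 := by
    intro n h
    refine hst3 (C n) n (hCi n) ?_
    rw [← hCs]
    have h1 : (g '' Iic n)ᶜ ∈ (u n).1 := hcof _ ((finite_Iic n).image g).compl_mem_cofinite
    refine mem_of_superset (inter_mem h h1) ?_
    rintro _ ⟨⟨k, rfl⟩, hk⟩
    have : n + 1 ≤ k := by
      by_contra hc
      exact hk ⟨k, by simpa using Nat.lt_succ_iff.1 (not_le.1 hc), rfl⟩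
    exact hanti this (hg k)
  haveI := hD.cofinite_inf_principal_neBot
  let r := Ultrafilter.of (cofinite ⊓ 𝓟 (range g))
  have hr : (r : Filter ℕ) ≤ cofinite ⊓ 𝓟 (range g) := Ultrafilter.of_le _
  have hrD : range g ∈ r := le_principal_iff.1 (hr.trans inf_le_right)
  have hrf : ∀ n : ℕ, r ≠ pure n := by
    intro n h
    have h1 : ({n}ᶜ : Set ℕ) ∈ r := (hr.trans inf_le_left) (finite_singleton n).compl_mem_cofinite
    rw [h] at h1
    simp at h1
  have h2 : (⟨r, hrf⟩ : NStar) ∈ interior (closure (range u)) := by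
    rw [← hUe]
    refine hBU (mem_of_superset hrD ?_)
    rintro _ ⟨k, rfl⟩
    rw [← hC0]
    exact hanti (Nat.zero_le k) (hg k)
  have h3 : IsOpen {s : NStar | range g ∈ s.1} :=
    (ultrafilter_isOpen_basic (range g)).preimage continuous_subtype_val
  obtain ⟨_, h4, n, rfl⟩ := mem_closure_iff.1 (interior_subset h2) _ h3 hrD
  exact hDu n h4

/-- For every closed (in particular every finite) `A ⊆ βℕ \ ℕ`, the space
`FMQ(βℕ \ ℕ, A, dense sets)` is `k₂`-Hausdorff. -/
theorem result (A : Set NStar) (hA : A.Finite ∨ IsClosed A)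
    (K : Type) [TopologicalSpace K] [CompactSpace K] [T2Space K] (f : K → FMQ NStar A)
    (hf : Continuous f) : IsClosed {p : K × K | f p.1 = f p.2} :=
  k2 (hA.elim Finite.isClosed id) nstar_nwd hf

end Pool.Agent.Results.MP_a8a70f_gt.K2Hausdorff
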